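import Pool.Agent.N661.QB.All

/-!
# Ergodic local limits and quantum unique ergodicity (MP_07c750_an)

`HP` is the upper half plane `im z > 0` with the hyperbolic area measure `dx dy / y²`; a hyperbolic
surface is represented by an open fundamental domain `Ω ⊆ HP` of finite area, and its
eigenfunctions by solutions of `y² Δu + λ_n u = 0` on `HP`. The definitions `MW`, `IsStationary`,
`IsErgodic`, `J0`, `IsInfinitelyDivisible`, `IsRandomWave` are in `Pool.Agent.N661.BR.Defs`, `Gau4` in
`Pool.Agent.N661.BR.Defs2`, `HP`, `IsQuantumErgodic`, `loc`, `frames` in `Pool.Agent.N661.BH.Stm`,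
`LocalLaws` in `Pool.Agent.N661.BH.Defs3` and `MeanSquareOne` in `Pool.Agent.N661.QB.Defs`.

The theorem concerns arbitrary eigenfunctions `u_n` with mean square tending to `1` over `Ω`; no
equidistribution is assumed. `LocalLaws Ω lam u μ` says that the laws of the functions
`w ↦ u_n (z + λ_n^{-1/2} y w)`, in a random orthonormal frame at a random point `z = x + iy` of `Ω`,
converge to `μ`, a law on the space `MW` of the solutions of `Δf + f = 0` (this is the convergence of
Benjamini and Schramm; every sequence has a subsequence with this property). If `μ` is invariant and
ergodic under translations, with variance one (no mass is lost at the scale of the wavelength), then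
the sequence is quantum ergodic over `Ω` in the unit cotangent bundle, in particular
`∫ φ u_n² dvol → ∫ φ dvol` for all test functions `φ`: quantum unique ergodicity holds along the
sequence. Moreover `μ` is then Gaussian to fourth order with the covariance `J₀(|w - w'|)` of the random
wave, and equal to the random wave if it is infinitely divisible.

It was known (Abért, Bergeron and Le Masson) that convergence to the Gaussian random wave implies
quantum unique ergodicity. Here the assumption on `μ` is only ergodicity, and the Gaussian covariance,
three and four point functions are part of the conclusion. So quantum unique ergodicity can fail, for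
a sequence without loss of mass at the scale of the wavelength, only if the limits are not ergodic.

Proof idea. The squares `u_n²` are uniformly integrable since no mass is lost. By ergodicity a finite
convex combination of translates of the truncated product `f(0) f(w)` is nearly constant in
`L²(μ)`; translations at the scale of the wavelength do not change the integrals against a test
function, so that `∫ φ(z) u_n(z) u_n(z + λ_n^{-1/2} y v) dvol → J₀(|v|) ∫ φ dvol`, first in the mean over
the directions of `v`, then for all `v` by equicontinuity. Differential equations along the rays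
`t ↦ t v` give the limits for all derivatives of `u_n` along the frame, which is quantum ergodicity. Then
the theorem on ergodic limits (compensated compactness of quartic expressions) applies.

The parts of the proof are due to helpers 40, 87, 93, 130, 136, 141, 163, 222, 232, 271, 273, 278, 344,
407, 426, 459, 507, 511, 559, 603, 645, 661, 717, 738, 755, 814, 868, 878, 901, 916, 933, 945 and 953.
-/

set_option autoImplicit false
open MeasureTheory Filter Topology ProbabilityTheory
open scoped ContDiff ENNReal

namespace Pool.Agent.Results.MP_07c750_an.ErgodicLimitsQUE

open Pool.Agent.W745.RW (lap)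
open Pool.Agent.N661.BR (MW IsStationary IsErgodic Gau4 J0 IsInfinitelyDivisible IsRandomWave)
open Pool.Agent.N661.BH (HP IsQuantumErgodic LocalLaws)
open Pool.Agent.N661.QB (MeanSquareOne)

/-- **Result.** Let `Ω ⊆ HP` be a nonempty open set of finite hyperbolic area and let `u n` be real
eigenfunctions of the hyperbolic Laplacian, `y² Δu + λ_n u = 0` on `HP`, `λ_n → ∞`, whose mean square
over `Ω` tends to `1`. If their local laws over `Ω` converge to a translation invariant ergodic law `μ`
with `∫ f(0)² dμ = 1`, then the sequence is quantum ergodic in the unit cotangent bundle over `Ω`;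
`μ` is Gaussian to fourth order with covariance `J₀ (|w - w'|)`, and it is the law of the isotropic
random wave if it is infinitely divisible. -/
theorem result (Ω : Set ℂ) (hΩ : IsOpen Ω) (hHP : Ω ⊆ HP) (hne : Ω.Nonempty)
    (hA : IntegrableOn (fun z : ℂ => 1 / z.im ^ 2) Ω)
    (lam : ℕ → ℝ) (hpos : ∀ n, 0 < lam n) (hlam : Tendsto lam atTop atTop)
    (u : ℕ → ℂ → ℝ) (hu : ∀ n, ContDiffOn ℝ ∞ (u n) HP)
    (heq : ∀ n, ∀ z ∈ HP, z.im ^ 2 * lap (u n) z + lam n * u n z = 0)
    (hms : MeanSquareOne Ω u)
    (μ : Measure MW) [IsProbabilityMeasure μ] (hμ : LocalLaws Ω lam u μ)
    (hs : IsStationary μ) (he : IsErgodic μ) (hvar : ∫ f : MW, f 0 ^ 2 ∂μ = 1) :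
    IsQuantumErgodic Ω lam u ∧ Gau4 μ ∧
      (∀ w w' : ℂ, ∫ f : MW, f w * f w' ∂μ = J0 ‖w - w'‖) ∧
      (IsInfinitelyDivisible μ → IsRandomWave μ) :=
  Pool.Agent.N661.QB.final' ⟨hΩ, hHP, hne, hA, hpos, hlam, hu, heq, hms⟩ inferInstance hμ hs he hvar

end Pool.Agent.Results.MP_07c750_an.ErgodicLimitsQUE
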