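import Pool.Agent.N266.GQ.Main

/-!
# Quantum limits along a sequence of eigenvalues for generic conformal metrics on a closed surface

Let `(M, g)` be a closed surface with a continuous Riemannian metric (for instance a smooth metric
of negative curvature), and let `F` be a topological vector space with the Baire property and with a
continuous linear map `ι` with dense range into `C(M)`, for instance the Fréchet space of the smooth
functions. For `φ` in `F` consider the metric `exp (ι φ) · g` and an orthonormal basis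
`u φ 0, u φ 1, ...` of `L²` which consists of eigenfunctions of its Laplacian, ordered by the
eigenvalue. Let `J k` be a sequence of indices which tends to infinity. `mass f φ v` is the integral
of `f v²` and `mean f φ` the mean value of `f`, for the area of `exp φ · g`.

For the generic `φ` (in the sense of Baire; in particular for the generic metric of negative
curvature, since the negatively curved metrics form an open set of smooth functions):

* all positive eigenvalues are simple;
* for every continuous function `f` the lower limit of `∫ f u_{J k}²` is at most the mean value of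
  `f`, and the upper limit is at least the mean value: no set of positive measure with regular
  boundary can be avoided, or overcharged, by all functions of the sequence;
* if the upper limit at `φ` is at most `c`, then it is at most `c + ε` for the metrics near `φ`,
  uniformly in `k` and over the metrics for which the eigenvalue is simple.

Alternative: there are disjoint open sets `U₁` and `U₂` with dense union, such that for the generic
`φ` in `U₁` the sequence `u φ (J k)` is equidistributed (quantum unique ergodicity along `J`), and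
near every `φ` in `U₂` there are a function `f` and `ε > 0` such that for the generic `ψ` near `φ`
infinitely many of the masses of `f` exceed the mean value by `ε`.

The theorem `generic_main` of helper205 (`Pool/Agent/Q205/QLim/Fin.lean`) is used for the first part.
-/

set_option autoImplicit false

open Set Filter Topology MeasureTheory
open Pool.Agent.Y262.QE

noncomputable section

namespace Pool.Agent.Results.MP_07c750_an.GenericConformalMetrics

/-- `u 0, u 1, ...` is an orthonormal basis of `L² (μ)` which consists of eigenfunctions of the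
Laplacian of the surface `D` with the area `μ`; the eigenvalues `lam 0 ≤ lam 1 ≤ ...` are ordered -/
structure IsEigenbasis {M : Type} [MeasurableSpace M] (D : Data M) (μ : Measure M)
    (u : ℕ → M → ℝ) (lam : ℕ → ℝ) : Prop where
  eig : ∀ j, D.IsEig μ (lam j) (u j)
  mono : Monotone lam
  orth : ∀ i j, ∫ x, u i x * u j x ∂μ = if i = j then 1 else 0
  total : ∀ f : M → ℝ, MemLp f 2 μ → (∀ j, ∫ x, f x * u j x ∂μ = 0) → f =ᵐ[μ] 0

/-- the surface with the metric `exp φ · g` -/
def surf {M : Type} [TopologicalSpace M] (D : Data M) (φ : C(M, ℝ)) : Data M :=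
  D.conf fun x => Real.exp (φ x)

/-- the area of the metric `exp φ · g` -/
def area {M : Type} [TopologicalSpace M] [MeasurableSpace M] (μ : Measure M) (φ : C(M, ℝ)) :
    Measure M :=
  wm μ fun x => Real.exp (φ x)

/-- the integral of `f v²` for the area of `exp φ · g` -/
def mass {M : Type} [TopologicalSpace M] [MeasurableSpace M] (μ : Measure M)
    (f φ : C(M, ℝ)) (v : M → ℝ) : ℝ :=
  ∫ x, f x * (v x) ^ 2 ∂(area μ φ)

/-- the mean value of `f` for the area of `exp φ · g` -/
def mean {M : Type} [TopologicalSpace M] [MeasurableSpace M] (μ : Measure M)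
    (f φ : C(M, ℝ)) : ℝ :=
  (∫ x, f x ∂(area μ φ)) / (area μ φ).real univ

theorem result (M : Type) [MetricSpace M] [CompactSpace M] [MeasurableSpace M] [BorelSpace M]
    [Nonempty M] (μ : Measure M) (D : Data M) (hD : D.IsSurf μ)
    (F : Type) [AddCommGroup F] [Module ℝ F] [TopologicalSpace F]
    [IsTopologicalAddGroup F] [ContinuousSMul ℝ F] [BaireSpace F]
    (ι : F →L[ℝ] C(M, ℝ)) (hι : DenseRange ι) :
    -- the bases exist
    (∀ φ : F, (surf D (ι φ)).IsSurf (area μ (ι φ)) ∧
      ∃ (u : ℕ → M → ℝ) (lam : ℕ → ℝ), IsEigenbasis (surf D (ι φ)) (area μ (ι φ)) u lam) ∧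
    ∀ (u : F → ℕ → M → ℝ) (lam : F → ℕ → ℝ),
      (∀ φ, IsEigenbasis (surf D (ι φ)) (area μ (ι φ)) (u φ) (lam φ)) →
    ∀ J : ℕ → ℕ, Tendsto J atTop atTop →
    -- generic metrics
    (∀ᶠ φ in residual F,
      (∀ j, 0 < lam φ j → lam φ j < lam φ (j + 1)) ∧
      (∀ (f : C(M, ℝ)) (ε : ℝ), 0 < ε →
        (∃ᶠ k in atTop, mean μ f (ι φ) - ε < mass μ f (ι φ) (u φ (J k))) ∧
        (∃ᶠ k in atTop, mass μ f (ι φ) (u φ (J k)) < mean μ f (ι φ) + ε)) ∧
      (∀ (f : C(M, ℝ)) (c : ℝ), (∀ᶠ k in atTop, mass μ f (ι φ) (u φ (J k)) ≤ c) →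
        ∀ ε : ℝ, 0 < ε → ∃ V ∈ 𝓝 φ, ∃ K : ℕ, ∀ ψ ∈ V, ∀ k, K ≤ k →
          (∀ l, l ≠ J k → lam ψ l ≠ lam ψ (J k)) →
          mass μ f (ι ψ) (u ψ (J k)) ≤ c + ε)) ∧
    -- alternative
    ∃ U₁ U₂ : Set F, IsOpen U₁ ∧ IsOpen U₂ ∧ Disjoint U₁ U₂ ∧ Dense (U₁ ∪ U₂) ∧
      (∀ᶠ φ in residual F, φ ∈ U₁ → ∀ f : C(M, ℝ),
        Tendsto (fun k => mass μ f (ι φ) (u φ (J k))) atTop (𝓝 (mean μ f (ι φ)))) ∧
      ∀ φ ∈ U₂, ∃ (f : C(M, ℝ)) (ε : ℝ), 0 < ε ∧ ∃ V ∈ 𝓝 φ, ∀ᶠ ψ in residual F, ψ ∈ V →
        ∃ᶠ k in atTop, mean μ f (ι ψ) + ε < mass μ f (ι ψ) (u ψ (J k)) := by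
  refine ⟨fun φ => ⟨(Pool.Agent.Y262.QE.tConf M μ D hD _
    (Real.continuous_exp.comp (ι φ).continuous) fun x => Real.exp_pos _).1, ?_⟩, ?_⟩
  · obtain ⟨u, lam, h⟩ := Pool.Agent.Y264.QR.tEx M μ D hD inferInstance (ι φ)
    exact ⟨u, lam, h.eig, h.mono, h.orth, h.total⟩
  · intro u lam hu J hJ
    exact Pool.Agent.N266.GQ.main M μ D hD F ι hι u lam
      (fun φ => ⟨(hu φ).eig, (hu φ).mono, (hu φ).orth, (hu φ).total⟩) J hJ

end Pool.Agent.Results.MP_07c750_an.GenericConformalMetrics
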