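import Pool.Agent.N282.WB.All

/-!
# The quantum limits of the Walsh-quantized baker's map

The Walsh-quantized baker's map of Schack-Caves, Tracy-Scott, Anantharaman and Nonnenmacher is a
standard model of quantum chaos in which quantum unique ergodicity and the entropy of quantum limits
are studied. The wave functions are vectors of `(ℂ^D)^{⊗ (k+1)}` (the semiclassical parameter is
`D^{-(k+1)}`), and the map is `v₀ ⊗ v₁ ⊗ ⋯ ⊗ v_k ↦ v₁ ⊗ ⋯ ⊗ v_k ⊗ F* v₀` with the discrete Fourier
transform `F` of size `D`. Its classical limit is the `D`-baker's map, that is the shift on the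
sequences `x : ℤ → Fin D`, where `x 0, x 1, …` are the digits of the position and `x (-1), x (-2), …`
the digits of the momentum. A quantum limit is a weak limit of the Husimi measures of a sequence of
normalized eigenvectors, `k → ∞`. Anantharaman and Nonnenmacher proved that quantum unique ergodicity
fails in this model and that the entropy of every quantum limit is at least `(log D) / 2`.

Here **all quantum limits are determined**: a probability measure is a quantum limit iff it is the
diagonal of a translation invariant state of the quantum spin chain with `D` states at each site which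
is also invariant under the Fourier transform at all sites. Every such measure is the limit along *all*
`k → ∞` for *every* prescribed sequence of eigenvalues.

Some consequences (proved in `Pool/Agent/N282/WB/Cor.lean`, and not part of the theorem below): for
`D = 2` the Bernoulli measure with the weights `p, 1 - p` is the diagonal of an invariant state iff
`(2p-1)² ≤ 1/2`; for `p = 1/8` its entropy is larger than `(log 2) / 2`, so the lower bound of the
entropy does not characterize the quantum limits. For every invariant measure `ν` the measure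
`ν/4 + ν⁻/4 + λ/2` is the diagonal of an invariant state, where `λ` is the uniform measure and `ν⁻` the
image of `ν` under `x ↦ -x` modulo `D`.

Idea of the proof. Necessity: the reduced density matrices of an eigenvector are invariant under
translations, and under `F`, since the power `k + 1` of the map is `F*` at all sites; pass to the limit
by compactness. Sufficiency: concatenate eigenvectors of the density matrix of `n` neighbouring sites
with the right frequencies, append a marker, a word of length `η k` which is chosen such that all the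
translates of the resulting vector are almost orthogonal, also with respect to the local projections
(first moment method), and project it to the eigenspace.

The Lean proof of the parts was written by helpers 749, 87, 935, 9, 691, 738, 364, 279 and 282, see
`Pool/Agent/N282/WB/All.lean`.
-/

set_option autoImplicit false

open Filter Topology MeasureTheory
open scoped ComplexConjugate Matrix ComplexOrder

noncomputable section

namespace Pool.Agent.Results.MP_07c750_an.WalshBakerQuantumLimits

/-- wave functions on `k` sites, that is vectors of `(ℂ^D)^{⊗ k}` in the standard basis -/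
abbrev State (D k : ℕ) : Type := (Fin k → Fin D) → ℂ

/-- the square of the norm -/
def normSq {D k : ℕ} (ψ : State D k) : ℝ := ∑ w, ‖ψ w‖ ^ 2

/-- the discrete Fourier transform `F` of size `D` -/
def fourier (D : ℕ) : Matrix (Fin D) (Fin D) ℂ :=
  fun a b => ((Real.sqrt D : ℝ) : ℂ)⁻¹ *
    Complex.exp (-(2 * Real.pi * Complex.I * (a : ℕ) * (b : ℕ) / D))

/-- the Walsh-quantized baker's map on `k + 1` sites,
`v₀ ⊗ v₁ ⊗ ⋯ ⊗ v_k ↦ v₁ ⊗ ⋯ ⊗ v_k ⊗ F* v₀` -/
def baker (D k : ℕ) : Module.End ℂ (State D (k + 1)) where
  toFun ψ w := ∑ a, conj (fourier D a (w (Fin.last k))) *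
    ψ (Fin.cons a fun i : Fin k => w i.castSucc)
  map_add' φ ψ := by
    funext w
    simp [mul_add, Finset.sum_add_distrib]
  map_smul' c ψ := by
    funext w
    simp [Finset.mul_sum, mul_left_comm]

/-- The Husimi weight of `y`: the square of the modulus of the scalar product of `ψ` with the coherent
state of the rectangle with the position digits `y 0, …, y (l - 1)` and the momentum digits
`y k, y (k - 1), …, y l` (the most significant digit is `y k`). The coherent state is the tensor
product of the basis vectors `y i` for `i < l` and of the vectors `F* y i` for `l ≤ i ≤ k`. -/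
def husimi (D k l : ℕ) (ψ : State D (k + 1)) (y : Fin (k + 1) → Fin D) : ℝ :=
  ‖∑ u : Fin (k + 1) → Fin D,
    (∏ i : Fin (k + 1), if (i : ℕ) < l then (if y i = u i then 1 else 0) else
      fourier D (y i) (u i)) * ψ u‖ ^ 2

/-- The Husimi mass of the cylinder `{x | x (m + i) = w i for all i < n}`: the digit `x j` is `y j` for
`0 ≤ j < l`, and it is `y (j + k + 1)` for `l - (k + 1) ≤ j < 0`. -/
def husimiMass {D n : ℕ} (k l : ℕ) (ψ : State D (k + 1)) (m : ℤ) (w : Fin n → Fin D) : ℝ :=
  ∑ y : Fin (k + 1) → Fin D,
    if ∀ (i : Fin n) (j : Fin (k + 1)), (j : ℤ) ≡ m + i [ZMOD ((k : ℤ) + 1)] → y j = w i then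
      husimi D k l ψ y else 0

/-- cylinders in the phase space -/
def cylinder {D n : ℕ} (m : ℤ) (w : Fin n → Fin D) : Set (ℤ → Fin D) :=
  {x | ∀ i : Fin n, x (m + i) = w i}

/-- `μ` is a quantum limit: there are normalized eigenvectors `ψ j` of the quantum baker's maps on
`k j + 1` sites, and numbers `l j` of position digits, with `l j → ∞` and `k j - l j → ∞`, such that
the Husimi masses of all cylinders tend to their masses for `μ`. -/
def IsQuantumLimit (D : ℕ) (μ : Measure (ℤ → Fin D)) : Prop :=
  ∃ (k l : ℕ → ℕ) (ψ : ∀ j, State D (k j + 1)),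
    Tendsto l atTop atTop ∧ Tendsto (fun j => k j - l j) atTop atTop ∧
    (∀ j, normSq (ψ j) = 1 ∧ ∃ ev : ℂ, baker D (k j) (ψ j) = ev • ψ j) ∧
    ∀ (m : ℤ) (n : ℕ) (w : Fin n → Fin D),
      Tendsto (fun j => husimiMass (k j) (l j) (ψ j) m w) atTop (𝓝 (μ.real (cylinder m w)))

/-- the Fourier transform at each of `n` sites -/
def fourierPow (D n : ℕ) : Matrix (Fin n → Fin D) (Fin n → Fin D) ℂ :=
  fun u v => ∏ i, fourier D (u i) (v i)

/-- A state of the quantum spin chain with `D` states at each site which is invariant under
translations and under the Fourier transform at all sites: `ρ n` is the density matrix of `n`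
neighbouring sites. -/
structure IsInvariantState (D : ℕ) (ρ : (n : ℕ) → Matrix (Fin n → Fin D) (Fin n → Fin D) ℂ) :
    Prop where
  posSemidef : ∀ n, (ρ n).PosSemidef
  normalized : ∀ u v, ρ 0 u v = 1
  right : ∀ n (u v : Fin n → Fin D),
    ∑ a, ρ (n + 1) (Fin.snoc u a) (Fin.snoc v a) = ρ n u v
  left : ∀ n (u v : Fin n → Fin D),
    ∑ a, ρ (n + 1) (Fin.cons a u) (Fin.cons a v) = ρ n u v
  fourier : ∀ n, (fourierPow D n)ᴴ * ρ n * fourierPow D n = ρ n

/-- `μ` is the diagonal of the state `ρ` -/
def IsDiagonal {D : ℕ} (μ : Measure (ℤ → Fin D))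
    (ρ : (n : ℕ) → Matrix (Fin n → Fin D) (Fin n → Fin D) ℂ) : Prop :=
  ∀ (m : ℤ) (n : ℕ) (w : Fin n → Fin D), μ.real (cylinder m w) = (ρ n w w).re

lemma isInv_iff (D : ℕ) (ρ : (n : ℕ) → Matrix (Fin n → Fin D) (Fin n → Fin D) ℂ) :
    IsInvariantState D ρ ↔ Pool.Agent.N282.WB.IsInv (Pool.Agent.N282.WB.dft D) ρ :=
  ⟨fun h => ⟨h.posSemidef, h.normalized, h.right, h.left, h.fourier⟩,
    fun h => ⟨h.psd, h.one, h.right, h.left, h.inv⟩⟩

lemma isQL_iff (D : ℕ) (μ : Measure (ℤ → Fin D)) :
    IsQuantumLimit D μ ↔ Pool.Agent.N282.WB.IsQL D μ := Iff.rfl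

lemma iff_state (D : ℕ) (hD : 2 ≤ D) (μ : Measure (ℤ → Fin D)) [IsProbabilityMeasure μ] :
    IsQuantumLimit D μ ↔ ∃ ρ, Pool.Agent.N282.WB.IsInv (Pool.Agent.N282.WB.dft D) ρ ∧
      ∀ (m : ℤ) (n : ℕ) (w : Fin n → Fin D), μ.real (cylinder m w) = (ρ n w w).re := by
  constructor
  · intro h
    exact Pool.Agent.N282.WB.a_NC D hD μ h
  · rintro ⟨ρ, hρ, hμ⟩
    have hT : ∀ k, ∃ ev : ℂ, Module.End.HasEigenvalue (baker D k) ev := by
      intro k
      have : Nonempty (Fin (k + 1) → Fin D) := ⟨fun _ => ⟨0, by omega⟩⟩
      exact Module.End.exists_eigenvalue (baker D k)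
    choose ev hev using hT
    obtain ⟨ψ, h3, h4⟩ := Pool.Agent.N282.WB.a_FI D hD μ ρ hρ hμ ev hev (fun k => k / 2)
      (Nat.tendsto_div_const_atTop (by norm_num)) (by
        refine tendsto_atTop.2 fun b => ?_
        filter_upwards [eventually_ge_atTop (2 * b)] with k hk
        omega)
    exact ⟨fun k => k, fun k => k / 2, ψ, Nat.tendsto_div_const_atTop (by norm_num), by
        refine tendsto_atTop.2 fun b => ?_
        filter_upwards [eventually_ge_atTop (2 * b)] with k hk
        omega, fun k => ⟨(h3 k).1, ev k, (h3 k).2⟩, h4⟩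

/-- **The quantum limits of the Walsh-quantized baker's map.** A probability measure is a quantum limit
iff it is the diagonal of an invariant state. In this case it is the limit of normalized eigenvectors
`ψ k` of the quantum maps for the whole sequence `k → ∞`, for every choice of the eigenvalues `ev k` of
the quantum maps and for every choice of the numbers `l k` of position digits of the coherent
states. -/
theorem result (D : ℕ) (hD : 2 ≤ D) (μ : Measure (ℤ → Fin D)) [IsProbabilityMeasure μ] :
    (IsQuantumLimit D μ ↔ ∃ ρ, IsInvariantState D ρ ∧ IsDiagonal μ ρ) ∧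
    (IsQuantumLimit D μ →
      ∀ ev : ℕ → ℂ, (∀ k, Module.End.HasEigenvalue (baker D k) (ev k)) →
      ∀ l : ℕ → ℕ, Tendsto l atTop atTop → Tendsto (fun k => k - l k) atTop atTop →
      ∃ ψ : ∀ k, State D (k + 1),
        (∀ k, normSq (ψ k) = 1 ∧ baker D k (ψ k) = ev k • ψ k) ∧
        ∀ (m : ℤ) (n : ℕ) (w : Fin n → Fin D),
          Tendsto (fun k => husimiMass k (l k) (ψ k) m w) atTop (𝓝 (μ.real (cylinder m w)))) := by
  constructor
  · rw [iff_state D hD μ]
    simp only [isInv_iff]
    rfl
  · intro hμ ev hev l hl1 hl2
    obtain ⟨ρ, hρ, h⟩ := (iff_state D hD μ).1 hμ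
    exact Pool.Agent.N282.WB.a_FI D hD μ ρ hρ h ev hev l hl1 hl2

end Pool.Agent.Results.MP_07c750_an.WalshBakerQuantumLimits
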